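import Pool.Agent.Lib.MP_f82aec_nt_h17.PrimeT

/-!
# MP_f82aec_nt: reduction to lengths `n` with `2 n - 1` prime

`S n` is the number of odd sequences of length `n`.
-/

set_option autoImplicit false

namespace Pool.Agent.Results.MP_f82aec_nt.PrimeType

open Pool.Agent.MP_f82aec_nt_h17

/-- If `S n = 2 ^ e` has infinitely many solutions `n`, then for some `1 ≤ i ≤ e` there are
infinitely many `n` with `S n = 2 ^ i` such that `2 n - 1` is a prime (for which the order of `2`
modulo `2 n - 1` is `(n - 1) / i`). -/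
theorem result (e : ℕ) (h : {n | S n = 2 ^ e}.Infinite) :
    ∃ i, 1 ≤ i ∧ i ≤ e ∧ {n | (2 * n - 1).Prime ∧ S n = 2 ^ i}.Infinite :=
  prime_type h

end Pool.Agent.Results.MP_f82aec_nt.PrimeType
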