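import Pool.Agent.Lib.MP_f82aec_nt_h17.Fin

/-!
# MP_f82aec_nt: the statement for all exponents is equivalent to its case `e = 2`

`S n` is the number of odd sequences of length `n`. The statement of Q1 (for every `e ≥ 1` there are
infinitely many `n` with `S n = 2 ^ e`), its single case `S n = 4`, and the existence of infinitely
many non-Wieferich primes `p` such that the order of `2` modulo `p` is odd and equal to
`(p - 1) / 2`, are equivalent.
-/

set_option autoImplicit false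

namespace Pool.Agent.Results.MP_f82aec_nt.SingleCase

open Pool.Agent.MP_f82aec_nt_h17

/-- The primes `p` such that the order of `2` modulo `p` is odd and equal to `(p - 1) / 2`, and
`p ^ 2` does not divide `2 ^ (p - 1) - 1`. -/
def NonWieferichIndexTwo : Set ℕ :=
  {p | p.Prime ∧ Odd (orderOf (2 : ZMod p)) ∧ p = 2 * orderOf (2 : ZMod p) + 1 ∧
    ¬ p ^ 2 ∣ 2 ^ (p - 1) - 1}

/-- The statement of Q1, its case `e = 2`, and the infinitude of the set of primes above are
equivalent; more precisely `S n = 4` if and only if `2 n - 1` is the square of such a prime, and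
`S ((p ^ e + 1) / 2) = 2 ^ e` for all such primes `p` and all `e ≥ 1`. -/
theorem result :
    [∀ e : ℕ, 1 ≤ e → {n | S n = 2 ^ e}.Infinite, {n | S n = 4}.Infinite,
      NonWieferichIndexTwo.Infinite].TFAE ∧
    (∀ n, S n = 4 ↔ ∃ p ∈ NonWieferichIndexTwo, 2 * n = p ^ 2 + 1) ∧
    ∀ p ∈ NonWieferichIndexTwo, ∀ e n : ℕ, 1 ≤ e → 2 * n = p ^ e + 1 → S n = 2 ^ e := by
  have h4 : ∀ n, S n = 4 ↔ ∃ p ∈ NonWieferichIndexTwo, 2 * n = p ^ 2 + 1 := by
    intro n
    have := S_four_iff n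
    rw [show (2 : ℕ) ^ 2 = 4 by norm_num] at this
    rw [this]
    constructor
    · rintro ⟨p, h1, h2, h3, h4, h5⟩
      exact ⟨p, ⟨h1, h3, h4, h5⟩, h2⟩
    · rintro ⟨p, ⟨h1, h3, h4, h5⟩, h2⟩
      exact ⟨p, h1, h2, h3, h4, h5⟩
  have hpow : ∀ p ∈ NonWieferichIndexTwo, ∀ e n : ℕ, 1 ≤ e → 2 * n = p ^ e + 1 → S n = 2 ^ e :=
    fun p hp e n he hn => pow_case hp.1 hp.2.1 hp.2.2.1 he (fun _ => hp.2.2.2) hn
  refine ⟨?_, h4, hpow⟩
  tfae_have 1 → 2 := by
    intro h
    have := h 2 (by omega)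
    rwa [show (2 : ℕ) ^ 2 = 4 by norm_num] at this
  tfae_have 2 → 3 := by
    intro h hfin
    apply h
    refine (hfin.image fun p => (p ^ 2 + 1) / 2).subset ?_
    intro n hn
    obtain ⟨p, hp, h1⟩ := (h4 n).1 hn
    exact ⟨p, hp, by show (p ^ 2 + 1) / 2 = n; omega⟩
  tfae_have 3 → 1 := by
    intro h
    refine all_of_four ?_
    rw [show (2 : ℕ) ^ 2 = 4 by norm_num]
    have hinj : Set.InjOn (fun p => (p ^ 2 + 1) / 2) NonWieferichIndexTwo := by
      intro p hp q hq hpq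
      have h1 : Odd (p ^ 2) := Odd.pow ⟨_, hp.2.2.1⟩
      have h2 : Odd (q ^ 2) := Odd.pow ⟨_, hq.2.2.1⟩
      simp only at hpq
      rcases h1 with ⟨a, ha⟩
      rcases h2 with ⟨b, hb⟩
      have h3 : p ^ 2 = q ^ 2 := by omega
      exact Nat.pow_left_injective (n := 2) (by omega) h3
    refine (h.image hinj).mono ?_
    rintro n ⟨p, hp, rfl⟩
    have h1 : Odd (p ^ 2) := Odd.pow ⟨_, hp.2.2.1⟩
    rcases h1 with ⟨a, ha⟩
    refine (h4 _).2 ⟨p, hp, ?_⟩
    show 2 * ((p ^ 2 + 1) / 2) = p ^ 2 + 1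
    omega
  tfae_finish

end Pool.Agent.Results.MP_f82aec_nt.SingleCase
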